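import Pool.Agent.Helper56.RZ.GoalsB

/-!
# Project RZ, packet CR: `C^r` closeness of `g = (id + w) ∘ f`
-/

set_option autoImplicit false

open Set Filter Topology

open scoped ContDiff

namespace Pool.Agent.Helper1.RZ

open Pool.Agent.Helper56.RZ

theorem cr : StmtCR := by
  intro N K r M f hf ι _ c L hL ε hε
  -- `f ∘ ψ` is `C^r` on `V`
  have hcomp : ∀ i, ContDiffOn ℝ r (fun z => f ((c i).ψ z)) (c i).V := by
    intro i
    have h1 : ContDiffOn ℝ r (c i).ψ (c i).V := (c i).smoothψ.of_le (by exact_mod_cast le_top)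
    exact hf.comp h1 (fun z hz => ((c i).mapsψ z hz).1)
  -- bounds of the derivatives
  have hbd : ∀ i, ∀ k, k ≤ r → ∃ D : ℝ, ∀ z ∈ L i,
      ‖iteratedFDerivWithin ℝ k (fun z => f ((c i).ψ z)) (c i).V z‖ ≤ D := by
    intro i k hk
    have h1 : ContinuousOn (iteratedFDerivWithin ℝ k (fun z => f ((c i).ψ z)) (c i).V) (L i) :=
      ((hcomp i).continuousOn_iteratedFDerivWithin (by exact_mod_cast hk)
        (c i).openV.uniqueDiffOn).mono (hL i).2
    obtain ⟨D, hD⟩ := (hL i).1.exists_bound_of_continuousOn h1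
    exact ⟨D, hD⟩
  choose! D0 hD0 using hbd
  haveI := Fintype.ofFinite ι
  let D : ℝ := 1 + ∑ i, ∑ k ∈ Finset.range (r + 1), |D0 i k|
  have hD1 : 1 ≤ D := by
    have : 0 ≤ ∑ i, ∑ k ∈ Finset.range (r + 1), |D0 i k| :=
      Finset.sum_nonneg fun i _ => Finset.sum_nonneg fun k _ => abs_nonneg _
    have hd : D = 1 + ∑ i, ∑ k ∈ Finset.range (r + 1), |D0 i k| := rfl
    linarith
  have hD : ∀ i, ∀ k, k ≤ r → ∀ z ∈ L i,
      ‖iteratedFDerivWithin ℝ k (fun z => f ((c i).ψ z)) (c i).V z‖ ≤ D := by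
    intro i k hk z hz
    have h1 := hD0 i k hk z hz
    have h2 : |D0 i k| ≤ ∑ k ∈ Finset.range (r + 1), |D0 i k| :=
      Finset.single_le_sum (f := fun k => |D0 i k|) (fun k _ => abs_nonneg _)
        (Finset.mem_range.2 (by omega))
    have h3 : ∑ k ∈ Finset.range (r + 1), |D0 i k| ≤ ∑ i, ∑ k ∈ Finset.range (r + 1), |D0 i k| :=
      Finset.single_le_sum (f := fun i => ∑ k ∈ Finset.range (r + 1), |D0 i k|)
        (fun i _ => Finset.sum_nonneg fun k _ => abs_nonneg _) (Finset.mem_univ i)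
    have hd : D = 1 + ∑ i, ∑ k ∈ Finset.range (r + 1), |D0 i k| := rfl
    have h4 := le_abs_self (D0 i k)
    linarith
  have hfac : (0 : ℝ) < (r.factorial : ℝ) * D ^ r := by positivity
  refine ⟨ε / ((r.factorial : ℝ) * D ^ r), div_pos hε hfac, ?_⟩
  intro w hw hwb g hg i k hk z hz
  have hzV : z ∈ (c i).V := (hL i).2 hz
  have hVn : (c i).V ∈ 𝓝 z := (c i).openV.mem_nhds hzV
  have hev : (fun z => g ((c i).ψ z) - f ((c i).ψ z)) =ᶠ[𝓝 z] (w ∘ fun z => f ((c i).ψ z)) := by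
    filter_upwards [hVn] with y hy
    have := hg ((c i).ψ y) ((c i).mapsψ y hy).1
    simp only [Function.comp, this, add_sub_cancel_left]
  rw [(Filter.EventuallyEq.iteratedFDeriv (𝕜 := ℝ) hev k).eq_of_nhds]
  rw [← iteratedFDerivWithin_of_isOpen k (c i).openV hzV]
  have key := norm_iteratedFDerivWithin_comp_le (𝕜 := ℝ) (g := w)
    (f := fun z => f ((c i).ψ z)) (n := k) (s := (c i).V) (t := univ) (x := z)
    (N := (r : WithTop ℕ∞)) (hw.contDiffOn.of_le (by exact_mod_cast le_top)) (hcomp i)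
    (by exact_mod_cast hk) uniqueDiffOn_univ (c i).openV.uniqueDiffOn (mapsTo_univ _ _) hzV
    (C := ε / ((r.factorial : ℝ) * D ^ r)) (D := D)
    (by
      intro j hj
      rw [iteratedFDerivWithin_univ]
      exact hwb j (hj.trans hk) _)
    (by
      intro j hj1 hj
      refine (hD i j (hj.trans hk) z hz).trans ?_
      calc D = D ^ 1 := (pow_one D).symm
        _ ≤ D ^ j := pow_le_pow_right₀ hD1 hj1)
  refine key.trans ?_
  have e1 : (k.factorial : ℝ) ≤ (r.factorial : ℝ) := by exact_mod_cast Nat.factorial_le hk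
  have e2 : D ^ k ≤ D ^ r := pow_le_pow_right₀ hD1 hk
  have hC0 : 0 ≤ ε / ((r.factorial : ℝ) * D ^ r) := (div_pos hε hfac).le
  calc (k.factorial : ℝ) * (ε / ((r.factorial : ℝ) * D ^ r)) * D ^ k
      ≤ (r.factorial : ℝ) * (ε / ((r.factorial : ℝ) * D ^ r)) * D ^ r := by gcongr
    _ = ε := by field_simp

end Pool.Agent.Helper1.RZ
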